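import Pool.Agent.Run7.h787.ST.Iface2
import Pool.Agent.Run7.h889.ST.FINV

/-!
# Project ST (helper787), pieces CYA and CYU: the numbers `2 cos (π / 2 ^ (n + 1))`
-/

set_option autoImplicit false

open NumberField IsDedekindDomain

noncomputable section

namespace Run7.h847.ST

open Pool.Agent.Run7.h787.ST Run7.h889.ST

lemma cy_nonneg (n : ℕ) : 0 ≤ cy n := by
  cases n with
  | zero => exact le_refl _
  | succ n => exact Real.sqrt_nonneg _

lemma cy_sq (n : ℕ) : cy (n + 1) ^ 2 = 2 + cy n := by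
  show Real.sqrt (2 + cy n) ^ 2 = 2 + cy n
  exact Real.sq_sqrt (by linarith [cy_nonneg n])

lemma two_int : IsIntegral ℤ (2 : ℝ) := by
  have : (2 : ℝ) = ((2 : ℤ) : ℝ) := by norm_num
  rw [this]
  exact isIntegral_algebraMap

lemma cy_int (n : ℕ) : IsIntegral ℤ (cy n) := by
  induction n with
  | zero => exact isIntegral_zero
  | succ n ih =>
    have h1 : IsIntegral ℤ (cy (n + 1) ^ 2) := by
      rw [cy_sq]
      exact two_int.add ih
    exact IsIntegral.of_pow (by norm_num) h1

lemma cy_series (n : ℕ) : cy n = Real.sqrtTwoAddSeries 0 n := by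
  induction n with
  | zero => rfl
  | succ n ih =>
    show Real.sqrt (2 + cy n) = Real.sqrt (2 + Real.sqrtTwoAddSeries 0 n)
    rw [ih]

lemma cy_cos (n : ℕ) : cy n = 2 * Real.cos (Real.pi / 2 ^ (n + 1)) := by
  rw [cy_series, Real.cos_pi_over_two_pow]
  ring

/-- `2 cos` as a sum of a root of unity and its inverse -/
lemma cy_zeta (n : ℕ) : Complex.exp (2 * Real.pi * Complex.I / ((2 ^ (n + 2) : ℕ) : ℂ)) +
    (Complex.exp (2 * Real.pi * Complex.I / ((2 ^ (n + 2) : ℕ) : ℂ)))⁻¹ = ((cy n : ℝ) : ℂ) := by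
  rw [cy_cos, ← Complex.exp_neg]
  push_cast
  rw [Complex.cos]
  have e1 : (2 : ℂ) * (Real.pi : ℂ) * Complex.I / 2 ^ (n + 2) = (Real.pi : ℂ) / 2 ^ (n + 1) * Complex.I := by
    rw [pow_succ (2 : ℂ) (n + 1)]
    field_simp
  rw [e1, neg_mul]
  ring

theorem t_CYA : S_CYA := by
  intro K _ _ _ n
  have hint : IsIntegral K (cy n) := (cy_int n).tower_top
  refine ⟨IntermediateField.adjoin.finiteDimensional hint, ?_⟩
  have hζ : IsPrimitiveRoot (Complex.exp (2 * Real.pi * Complex.I / ((2 ^ (n + 2) : ℕ) : ℂ)))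
      (2 ^ (n + 2)) := Complex.isPrimitiveRoot_exp (2 ^ (n + 2)) (by positivity)
  have hz := cy_zeta n
  generalize Complex.exp (2 * Real.pi * Complex.I / ((2 ^ (n + 2) : ℕ) : ℂ)) = ζ at hζ hz
  have hζi : IsIntegral K ζ := (hζ.isIntegral (by positivity)).tower_top
  have hcyc : IsCyclotomicExtension {2 ^ (n + 2)} K (IntermediateField.adjoin K {ζ}) := by
    change IsCyclotomicExtension {2 ^ (n + 2)} K (IntermediateField.adjoin K {ζ}).toSubalgebra
    rw [IntermediateField.adjoin_simple_toSubalgebra_of_isAlgebraic hζi.isAlgebraic]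
    exact hζ.adjoin_isCyclotomicExtension K
  have hab : IsAbelianGalois K (IntermediateField.adjoin K {ζ}) :=
    IsCyclotomicExtension.isAbelianGalois {2 ^ (n + 2)} K _
  let φ : ℝ →ₐ[K] ℂ := IsScalarTower.toAlgHom K ℝ ℂ
  have hle : (IntermediateField.adjoin K {cy n}).map φ ≤ IntermediateField.adjoin K {ζ} := by
    rw [IntermediateField.adjoin_map, Set.image_singleton, IntermediateField.adjoin_simple_le_iff]
    show ((cy n : ℝ) : ℂ) ∈ _
    rw [← hz]
    have h1 := IntermediateField.mem_adjoin_simple_self K ζ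
    exact add_mem h1 (inv_mem h1)
  exact IsAbelianGalois.of_algHom ((IntermediateField.inclusion hle).comp
    (IntermediateField.equivMap (IntermediateField.adjoin K {cy n}) φ).toAlgHom)

/-- a prime ideal which contains `cy k ± 2` contains `2` -/
lemma two_mem {P : Set ℝ} (hP : IsRealPrime P) (k : ℕ) :
    (cy k + 2 ∈ P → (2 : ℝ) ∈ P) ∧ (cy k - 2 ∈ P → (2 : ℝ) ∈ P) := by
  have hB : ∀ k, cy k - 2 ∈ P → (2 : ℝ) ∈ P := by
    intro k
    induction k with
    | zero =>
      intro h
      have h1 := neg_mem hP h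
      have h2 : -(cy 0 - 2) = 2 := by
        show -((0 : ℝ) - 2) = 2
        norm_num
      rwa [h2] at h1
    | succ k ih =>
      intro h
      apply ih
      have h1 := hP.2.2.2.1 (cy (k + 1) + 2) _ ((cy_int _).add two_int) h
      have h2 : (cy (k + 1) + 2) * (cy (k + 1) - 2) = cy k - 2 := by
        have := cy_sq k
        linear_combination this
      rwa [h2] at h1
  refine ⟨?_, hB k⟩
  intro h
  cases k with
  | zero =>
    have h2 : cy 0 + 2 = 2 := by
      show (0 : ℝ) + 2 = 2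
      norm_num
    rwa [h2] at h
  | succ k =>
    apply hB k
    have h1 := hP.2.2.2.1 (cy (k + 1) - 2) _ ((cy_int _).sub two_int) h
    have h2 : (cy (k + 1) - 2) * (cy (k + 1) + 2) = cy k - 2 := by
      have := cy_sq k
      linear_combination this
    rwa [h2] at h1

theorem t_CYU (hRES : S_RES) : S_CYU := by
  intro K _ _ _ H n p hH hE hcy h2 hun P hP g hg
  obtain ⟨r, hr, -⟩ := hRES K H (ext H (cy (n + 1))) (fun x hx => mem_ext_left H _ hx) hH hE
  have hr1 : r g = 1 := by
    refine hun P hP (r g) fun x hx => ?_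
    have e := hr g x ⟨x, mem_ext_left H _ x.2⟩ rfl
    rw [e]
    exact hg ⟨x, mem_ext_left H _ x.2⟩ hx
  have hfix : ∀ y : ext H (cy (n + 1)), (y : ℝ) ∈ H → g y = y := by
    intro y hy
    have e := hr g ⟨y, hy⟩ y rfl
    rw [hr1] at e
    exact (Subtype.ext e).symm
  set a' : ext H (cy (n + 1)) := ⟨cy (n + 1), mem_ext_self H _⟩ with ha'
  have hsqm : ((a' ^ 2 : ext H (cy (n + 1))) : ℝ) ∈ H := by
    have e : ((a' ^ 2 : ext H (cy (n + 1))) : ℝ) = 2 + cy n := by
      push_cast
      exact cy_sq n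
    rw [e]
    exact add_mem (by exact ofNat_mem H 2) hcy
  have hgsq : (g a') ^ 2 = a' ^ 2 := by
    rw [← map_pow]
    exact hfix _ hsqm
  rcases sq_eq_sq_iff_eq_or_eq_neg.1 hgsq with h | h
  · exact eq_one_of_fix H (cy (n + 1)) g hfix h
  · exfalso
    obtain ⟨hPr, hov⟩ := hP
    have h3 := hg a' (cy_int (n + 1))
    rw [h] at h3
    have h4 : (-2 : ℝ) * cy (n + 1) ∈ P := by
      have e : (-2 : ℝ) * cy (n + 1) = ((-a' : ext H (cy (n + 1))) : ℝ) - (a' : ℝ) := by
        push_cast
        ring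
      rw [e]
      exact h3
    have h2P : (2 : ℝ) ∈ P := by
      rcases hPr.2.2.2.2.2 _ _ two_int.neg (cy_int (n + 1)) h4 with h5 | h5
      · have h6 := neg_mem hPr h5
        rwa [neg_neg] at h6
      · have h6 := hPr.2.2.2.1 _ _ (cy_int (n + 1)) h5
        have e : cy (n + 1) * cy (n + 1) = cy n + 2 := by
          have := cy_sq n
          linear_combination this
        rw [e] at h6
        exact (two_mem hPr n).1 h6
    apply h2
    rw [← hov]
    have : algebraMap K ℝ (((2 : 𝓞 K)) : K) = 2 := by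
      have : (((2 : 𝓞 K)) : K) = 2 := rfl
      rw [this, map_ofNat]
    rw [this]
    exact h2P

end Run7.h847.ST
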